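import Mathlib
import Pool.Agent.H16.LA.S8.Y733.LS.Sum
import Pool.Agent.H16.LA.S8.Y733.DYN.Loc

/-!
# Places in extensions, heights of vectors
-/

set_option autoImplicit false
set_option linter.unusedSectionVars false

namespace Pool.Agent.Y733.DYN

open NumberField IsDedekindDomain Pool.Agent.H691R3 Pool.Agent.W223.AK Pool.Agent.Y733.LS

section

variable {K L : Type} [Field K] [NumberField K] [Field L] [NumberField L] [Algebra K L]

theorem fv_val {M : Type} [Field M] [NumberField M] (v : Pr M) (x : M) :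
    fv v x = WithZeroMulInt.toNNReal (HeightOneSpectrum.absNorm_ne_zero v) (v.valuation M x) :=
  NumberField.FinitePlace.norm_embedding' (v := v) (x := x)

/-- the primes of `L` above `v` -/
noncomputable def Ab (L : Type) [Field L] [NumberField L] [Algebra K L] (v : Pr K) :
    Finset (Pr L) :=
  (Set.Finite.preimage (f := fun w : Pr L => w.asIdeal)
    (fun _ _ _ _ h => HeightOneSpectrum.ext h)
    (Set.toFinite (v.asIdeal.primesOver (𝓞 L)))).toFinset

theorem mem_Ab {v : Pr K} {w : Pr L} : w ∈ Ab L v ↔ w.asIdeal.LiesOver v.asIdeal := by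
  unfold Ab
  rw [Set.Finite.mem_toFinset, Set.mem_preimage]
  constructor
  · intro h
    exact h.2
  · intro h
    exact ⟨w.isPrime, h⟩

theorem Ab_disj {v v' : Pr K} (h : v ≠ v') : Disjoint (Ab L v) (Ab L v') := by
  rw [Finset.disjoint_left]
  intro w h1 h2
  rw [mem_Ab] at h1 h2
  exact h (HeightOneSpectrum.ext (h1.over.trans h2.over.symm))

/-- the ramification index -/
noncomputable def ri (v : Pr K) (w : Pr L) : ℕ := v.asIdeal.ramificationIdx' w.asIdeal

theorem ri_eq {v : Pr K} {w : Pr L} (h : w ∈ Ab L v) : ri v w = w.asIdeal.ramificationIdx (𝓞 K) := by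
  have := mem_Ab.1 h
  have := v.isMaximal
  exact Ideal.ramificationIdx'_eq_ramificationIdx v.asIdeal w.asIdeal v.ne_bot

theorem ri_pos {v : Pr K} {w : Pr L} (h : w ∈ Ab L v) : 1 ≤ ri v w := by
  have := mem_Ab.1 h
  exact Nat.pos_of_ne_zero (Ideal.IsDedekindDomain.ramificationIdx'_ne_zero_of_liesOver _ v.ne_bot)

open scoped WithZero in
theorem unzero_pow {a b : ℤᵐ⁰} (ha : a ≠ 0) (hb : b ≠ 0) (e : ℕ) (h : a ^ e = b) :
    Multiplicative.toAdd (WithZero.unzero hb) = Multiplicative.toAdd (WithZero.unzero ha) * e := by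
  have h4 : WithZero.unzero hb = WithZero.unzero ha ^ e := by
    apply WithZero.coe_injective
    rw [WithZero.coe_unzero, WithZero.coe_pow, WithZero.coe_unzero, ← h]
  rw [h4, toAdd_pow, nsmul_eq_mul, mul_comm]

theorem one_le_prd {ι : Type} (s : Finset ι) (f : ι → ℝ) (h : ∀ i, 1 ≤ f i) :
    1 ≤ ∏ i ∈ s, f i :=
  Finset.prod_induction f (fun x => 1 ≤ x) (fun _ _ => one_le_mul_of_one_le_of_one_le) le_rfl
    fun i _ => h i

/-- the absolute value above `v` -/
theorem fv_ext {v : Pr K} {w : Pr L} (h : w ∈ Ab L v) {z : K} {m : ℤ} (hz : fv v z = Nv v ^ m) :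
    fv w (algebraMap K L z) = Nv w ^ (m * ri v w) := by
  have hl := mem_Ab.1 h
  have h0 : z ≠ 0 := by
    rintro rfl
    rw [map_zero] at hz
    have : Nv v ^ m ≠ 0 := zpow_ne_zero _ (Nv_pos v).ne'
    exact this hz.symm
  have h1 := HeightOneSpectrum.valuation_liesOver L v w z
  have hv0 : v.valuation K z ≠ 0 := (Valuation.ne_zero_iff _).2 h0
  rw [fv_val, WithZeroMulInt.toNNReal_neg_apply _ hv0] at hz
  push_cast at hz
  have e1 : Multiplicative.toAdd (WithZero.unzero hv0) = m := by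
    have h3 : (Ideal.absNorm v.asIdeal : ℝ) ^ (Multiplicative.toAdd (WithZero.unzero hv0)) =
        (Ideal.absNorm v.asIdeal : ℝ) ^ m := hz
    exact zpow_right_injective₀ (Nv_pos v) (Nv_one_lt v).ne' h3
  have hw0 : w.valuation L (algebraMap K L z) ≠ 0 := by
    rw [← h1]
    exact pow_ne_zero _ hv0
  rw [fv_val, WithZeroMulInt.toNNReal_neg_apply _ hw0]
  have e2 : Multiplicative.toAdd (WithZero.unzero hw0) = m * ri v w := by
    rw [unzero_pow hv0 hw0 _ h1, e1]
    rfl
  rw [e2]
  push_cast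
  rfl

/-- the fundamental identity -/
theorem sum_Ab (v : Pr K) : ∑ w ∈ Ab L v, (ri v w : ℝ) * Real.log (Nv w) =
    Module.finrank K L * Real.log (Nv v) := by
  classical
  have hmax := v.isMaximal
  set I : Finset (Ideal (𝓞 L)) := (v.asIdeal.primesOver (𝓞 L)).toFinset with hI
  have hmem : ∀ Q, Q ∈ I ↔ Q.IsPrime ∧ Q.LiesOver v.asIdeal := by
    intro Q
    rw [hI, Set.mem_toFinset]
    rfl
  have hbot : ∀ Q, Q ∈ I → Q ≠ ⊥ := by
    intro Q hQ
    obtain ⟨h1, h2⟩ := (hmem Q).1 hQ
    exact Ideal.ne_bot_of_liesOver_of_ne_bot v.ne_bot Q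
  have hfr : Module.finrank (𝓞 K) (𝓞 L) = Module.finrank K L :=
    (IsFractionRing.finrank_eq (𝓞 K) K (𝓞 L) L).symm
  have hmap : Ideal.map (algebraMap (𝓞 K) (𝓞 L)) v.asIdeal =
      ∏ Q ∈ I, Q ^ Q.ramificationIdx (𝓞 K) := Ideal.map_algebraMap_eq_finsetProd_pow v.ne_bot
  have h1 := Ideal.absNorm_algebraMap (𝓞 K) (𝓞 L) v.asIdeal
  rw [hmap, map_prod, hfr] at h1
  have h2 : (∏ Q ∈ I, ((Ideal.absNorm Q : ℝ)) ^ Q.ramificationIdx (𝓞 K)) =
      (Ideal.absNorm v.asIdeal : ℝ) ^ Module.finrank K L := by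
    have h3 := congrArg (fun n : ℕ => (n : ℝ)) h1
    simp only [Nat.cast_prod, Nat.cast_pow, map_pow] at h3
    exact h3
  have e1 : (Module.finrank K L : ℝ) * Real.log (Nv v) =
      ∑ Q ∈ I, (Q.ramificationIdx (𝓞 K) : ℝ) * Real.log (Ideal.absNorm Q) := by
    unfold Nv
    rw [← Real.log_pow, ← h2, Real.log_prod]
    · refine Finset.sum_congr rfl fun Q _ => ?_
      rw [Real.log_pow]
    · intro Q hQ
      refine pow_ne_zero _ ?_
      rw [Nat.cast_ne_zero]
      exact Ideal.absNorm_eq_zero_iff.not.2 (hbot Q hQ)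
  have hinj : Set.InjOn (fun w : Pr L => w.asIdeal) ↑(Ab L v) :=
    fun w _ w' _ h => HeightOneSpectrum.ext h
  have himg : (Ab L v).image (fun w : Pr L => w.asIdeal) = I := by
    ext Q
    rw [Finset.mem_image, hmem]
    constructor
    · rintro ⟨w, hw, rfl⟩
      exact ⟨w.isPrime, mem_Ab.1 hw⟩
    · rintro ⟨h1, h2⟩
      exact ⟨⟨Q, h1, hbot Q ((hmem Q).2 ⟨h1, h2⟩)⟩, mem_Ab.2 h2, rfl⟩
  rw [e1, ← himg, Finset.sum_image hinj]
  refine Finset.sum_congr rfl fun w hw => ?_
  rw [ri_eq hw]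
  rfl

theorem ri_le {v : Pr K} {w : Pr L} (h : w ∈ Ab L v) : ri v w ≤ Module.finrank K L := by
  have h1 := sum_Ab (L := L) v
  have h2 : (ri v w : ℝ) * Real.log (Nv w) ≤ Module.finrank K L * Real.log (Nv v) := by
    rw [← h1]
    exact Finset.single_le_sum (f := fun w : Pr L => (ri v w : ℝ) * Real.log (Nv w))
      (fun w _ => mul_nonneg (Nat.cast_nonneg _) (log_Nv_pos w).le) h
  have h3 : Real.log (Nv v) ≤ Real.log (Nv w) := by
    have hl := mem_Ab.1 h
    have hmax := v.isMaximal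
    have h4 : Ideal.absNorm w.asIdeal = Ideal.absNorm v.asIdeal ^
        (v.asIdeal.inertiaDeg' w.asIdeal) :=
      Ideal.absNorm_eq_pow_inertiaDeg'_of_liesOver _ _ v.isPrime v.ne_bot
    have h5 : 0 < v.asIdeal.inertiaDeg' w.asIdeal :=
      Nat.pos_of_ne_zero (Ideal.inertiaDeg'_ne_zero _ _)
    apply Real.log_le_log (Nv_pos v)
    unfold Nv
    have h6 : Ideal.absNorm v.asIdeal ≤ Ideal.absNorm w.asIdeal := by
      rw [h4]
      exact Nat.le_self_pow h5.ne' _
    exact_mod_cast h6
  have h4 := log_Nv_pos v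
  have h5 := log_Nv_pos w
  have h6 : (ri v w : ℝ) * Real.log (Nv w) ≤ Module.finrank K L * Real.log (Nv w) :=
    h2.trans (mul_le_mul_of_nonneg_left h3 (Nat.cast_nonneg _))
  have h7 := le_of_mul_le_mul_right h6 h5
  exact_mod_cast h7

end

section

variable {L : Type} [Field L] [NumberField L] {N : ℕ}

/-- the finite places contribute at most the height -/
theorem sum_le_ht (T : Finset (Pr L)) (y : Fin N → L) :
    ∑ w ∈ T, Real.log (mx (fv w) y) ≤ Height.logHeight (Fin.cons 1 y : Fin (N + 1) → L) := by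
  classical
  set y' : Fin (N + 1) → L := Fin.cons 1 y with hy'
  have h0 : y' ≠ 0 := by
    intro h
    have := congrFun h 0
    rw [hy', Fin.cons_zero] at this
    exact one_ne_zero this
  have hmx : ∀ w : AbsoluteValue L ℝ, 1 ≤ ⨆ i, w (y' i) := fun w => one_le_mx (w := w) y
  rw [Height.logHeight_eq_log_mulHeight, NumberField.mulHeight_eq h0]
  have hfin : (Function.mulSupport fun v : FinitePlace L => ⨆ i, v (y' i)).Finite := by
    have h1 : ∀ i, y' i ≠ 0 → {v : FinitePlace L | v (y' i) ≠ 1}.Finite := fun i hi =>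
      FinitePlace.hasFiniteMulSupport hi
    have h2 : (⋃ i : Fin (N + 1), {v : FinitePlace L | y' i ≠ 0 ∧ v (y' i) ≠ 1}).Finite := by
      refine Set.finite_iUnion fun i => ?_
      by_cases hi : y' i = 0
      · convert Set.finite_empty
        ext v
        simp [hi]
      · refine (h1 i hi).subset ?_
        intro v hv
        exact hv.2
    refine h2.subset ?_
    intro v hv
    rw [Function.mem_mulSupport] at hv
    by_contra hcon
    rw [Set.mem_iUnion] at hcon
    push Not at hcon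
    apply hv
    apply le_antisymm
    · refine ciSup_le fun i => ?_
      by_cases hi : y' i = 0
      · rw [hi, map_zero]; exact zero_le_one
      · by_contra hgt
        exact hcon i ⟨hi, fun h => hgt h.le⟩
    · exact hmx v.1
  have hprod : ∏ w ∈ T, mx (fv w) y ≤ ∏ᶠ v : FinitePlace L, ⨆ i, v (y' i) := by
    set T' : Finset (FinitePlace L) := T.image fun w => FinitePlace.mk w with hT'
    have hinj : Set.InjOn (fun w : Pr L => FinitePlace.mk w) (T : Set (Pr L)) := by
      intro a _ b _ hab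
      have := congrArg FinitePlace.maximalIdeal hab
      rwa [FinitePlace.maximalIdeal_mk, FinitePlace.maximalIdeal_mk] at this
    have e1 : ∏ w ∈ T, mx (fv w) y = ∏ v ∈ T', ⨆ i, v (y' i) := by
      rw [hT', Finset.prod_image hinj]
      rfl
    rw [e1, finprod_eq_prod_of_mulSupport_subset (s := hfin.toFinset ∪ T') _ (by
      intro v hv
      rw [Finset.mem_coe, Finset.mem_union]
      exact Or.inl (hfin.mem_toFinset.2 hv))]
    rw [← Finset.sdiff_union_of_subset (Finset.subset_union_right (s₁ := hfin.toFinset) (s₂ := T')),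
      Finset.prod_union Finset.sdiff_disjoint]
    refine le_mul_of_one_le_left ?_ ?_
    · exact Finset.prod_nonneg fun v _ => zero_le_one.trans (hmx v.1)
    · exact one_le_prd _ _ fun v => hmx v.1
  have hinf : 1 ≤ ∏ v : InfinitePlace L, (⨆ i, v (y' i)) ^ v.mult :=
    one_le_prd _ _ fun v => one_le_pow₀ (hmx v.1)
  have hT1 : 1 ≤ ∏ w ∈ T, mx (fv w) y := one_le_prd _ _ fun w => one_le_mx y
  rw [← Real.log_prod (fun w _ => (zero_lt_one.trans_le (one_le_mx y)).ne')]
  apply Real.log_le_log (by linarith)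
  exact hprod.trans (le_mul_of_one_le_left (by linarith) hinf)

end

end Pool.Agent.Y733.DYN
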